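import Pool.Agent.H88.OT.Targets

/-!
# The large sieve with weights
-/

set_option autoImplicit false

open MeasureTheory Set Filter Topology

namespace Pool.Agent.H19.OT

open Pool.Agent.H88.OT

theorem summable_geo {ε : ℝ} (hε : 0 < ε) :
    Summable fun k : ℕ => (1 + (k : ℝ)) ^ 2 * ((4 : ℝ) ^ (-ε)) ^ k := by
  have hr0 : (0 : ℝ) < (4 : ℝ) ^ (-ε) := Real.rpow_pos_of_pos (by norm_num) _
  have hr1 : (4 : ℝ) ^ (-ε) < 1 := Real.rpow_lt_one_of_one_lt_of_neg (by norm_num) (by linarith)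
  have hr : ‖(4 : ℝ) ^ (-ε)‖ < 1 := by rwa [Real.norm_of_nonneg hr0.le]
  have h0 := summable_pow_mul_geometric_of_norm_lt_one (R := ℝ) 0 hr
  have h1 := summable_pow_mul_geometric_of_norm_lt_one (R := ℝ) 1 hr
  have h2 := summable_pow_mul_geometric_of_norm_lt_one (R := ℝ) 2 hr
  refine ((h0.add (h1.mul_left 2)).add h2).congr fun k => ?_
  ring

theorem clog_le {x : ℕ} : (x : ℝ) ≤ (4 : ℝ) ^ Nat.clog 4 x := by
  exact_mod_cast Nat.le_pow_clog (by norm_num) x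

theorem lt_clog {x : ℕ} (hx : 1 ≤ x) : (4 : ℝ) ^ Nat.clog 4 x ≤ 4 * x := by
  rcases Nat.lt_or_ge 1 x with h | h
  · have h1 := Nat.pow_pred_clog_lt_self (b := 4) (by norm_num) h
    have h2 : 0 < Nat.clog 4 x := Nat.clog_pos (by norm_num) h
    have h5 : (Nat.clog 4 x).pred + 1 = Nat.clog 4 x := Nat.succ_pred_eq_of_pos h2
    have h3 : 4 ^ Nat.clog 4 x = 4 * 4 ^ (Nat.clog 4 x).pred := by
      rw [← pow_succ', h5]
    have h4 : 4 ^ Nat.clog 4 x ≤ 4 * x := by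
      rw [h3]; omega
    exact_mod_cast h4
  · obtain rfl : x = 1 := by omega
    rw [Nat.clog_one_right]
    norm_num

/-- the common form of the two estimates -/
theorem core (hLS : T_LS) (hKB : T_KB) (δ ε : ℝ) (hδ : 0 ≤ δ) (hε : 0 < ε) (hδε : δ + ε ≤ 1 / 2) :
    ∃ C : ℝ, 0 < C ∧ ∀ (A B : Cloud) (T μ ν u Z₁ Z₂ : ℝ)
    (F : Finset (ℕ × ℕ)), A.Sp T μ → B.Sp T ν → 1 ≤ u → 1 ≤ Z₁ → Z₁ ≤ Z₂ →
    (∀ p ∈ F, 1 ≤ p.1 ∧ 1 ≤ p.2 ∧ Nat.Coprime p.1 p.2 ∧ Z₁ ≤ (p.1 : ℝ) * p.2 ∧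
      (p.1 : ℝ) * p.2 ≤ Z₂) →
    ∑ p ∈ F, ((p.1 : ℝ) * p.2) ^ (-(1 / 2) + δ) * KK A B u (Real.log p.1 - Real.log p.2) ≤
      C * (u * Z₁ ^ (-(1 / 2) + (δ + ε)) + Z₂ ^ (1 / 2 + (δ + ε))) * Lam A B μ ν := by
  classical
  obtain ⟨C, hC, hLS⟩ := hLS
  have hsum := summable_geo hε
  set S := ∑' k : ℕ, (1 + (k : ℝ)) ^ 2 * ((4 : ℝ) ^ (-ε)) ^ k with hS
  have hS0 : 0 ≤ S := tsum_nonneg fun k => by positivity
  refine ⟨8 * C * S + 1, by positivity, ?_⟩
  intro A B T μ ν u Z₁ Z₂ F hA hB hu hZ₁ hZ hF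
  have hL : 0 ≤ Lam A B μ ν := Real.sqrt_nonneg _
  have hK : ∀ z, 0 ≤ KK A B u z := fun z => (hKB A B u z (by linarith)).2.1
  have hZ₂ : 1 ≤ Z₂ := hZ₁.trans hZ
  set E := u * Z₁ ^ (-(1 / 2) + (δ + ε)) + Z₂ ^ (1 / 2 + (δ + ε)) with hE
  have hE0 : 0 ≤ E := by positivity
  let κ : ℕ × ℕ → ℕ := fun p => Nat.clog 4 (p.1 * p.2)
  let a : ℕ → ℝ := fun k => (1 + (k : ℝ)) ^ 2 * ((4 : ℝ) ^ (-ε)) ^ k
  have ha : ∀ k, 0 ≤ a k := fun k => by positivity
  -- each element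
  have h1 : ∀ p ∈ F, ((p.1 : ℝ) * p.2) ^ (-(1 / 2) + δ) *
      KK A B u (Real.log p.1 - Real.log p.2) ≤
      2 * ((4 : ℝ) ^ κ p) ^ (-(1 / 2) + δ) * KK A B u (Real.log p.1 - Real.log p.2) := by
    intro p hp
    refine mul_le_mul_of_nonneg_right ?_ (hK _)
    obtain ⟨hp1, hp2, _, _, _⟩ := hF p hp
    have hx : 1 ≤ p.1 * p.2 := Nat.mul_pos hp1 hp2
    have h2 := lt_clog hx
    have h3 : (0 : ℝ) < (p.1 : ℝ) * p.2 := by
      have : (0 : ℝ) < ((p.1 * p.2 : ℕ) : ℝ) := by exact_mod_cast hx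
      simpa using this
    have h4 : (4 : ℝ) ^ κ p / 4 ≤ (p.1 : ℝ) * p.2 := by
      push_cast at h2
      linarith
    have h5 : (0 : ℝ) < (4 : ℝ) ^ κ p := by positivity
    calc ((p.1 : ℝ) * p.2) ^ (-(1 / 2) + δ) ≤ ((4 : ℝ) ^ κ p / 4) ^ (-(1 / 2) + δ) :=
          Real.rpow_le_rpow_of_nonpos (by positivity) h4 (by linarith)
      _ = ((4 : ℝ) ^ κ p) ^ (-(1 / 2) + δ) * (4 : ℝ) ^ (1 / 2 - δ) := by
          rw [Real.div_rpow h5.le (by norm_num), div_eq_mul_inv, ← Real.rpow_neg (by norm_num)]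
          congr 2
          ring
      _ ≤ ((4 : ℝ) ^ κ p) ^ (-(1 / 2) + δ) * 2 := by
          refine mul_le_mul_of_nonneg_left ?_ (by positivity)
          calc (4 : ℝ) ^ (1 / 2 - δ) ≤ (4 : ℝ) ^ (1 / 2 : ℝ) :=
                Real.rpow_le_rpow_of_exponent_le (by norm_num) (by linarith)
            _ = 2 := by
                rw [show (4 : ℝ) = 2 ^ (2 : ℝ) by norm_num, ← Real.rpow_mul (by norm_num)]
                norm_num
      _ = 2 * ((4 : ℝ) ^ κ p) ^ (-(1 / 2) + δ) := by ring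
  -- each class
  have h2 : ∀ k, ∑ p ∈ F with κ p = k, 2 * ((4 : ℝ) ^ κ p) ^ (-(1 / 2) + δ) *
      KK A B u (Real.log p.1 - Real.log p.2) ≤ a k * (8 * C * E * Lam A B μ ν) := by
    intro k
    rcases (F.filter fun p => κ p = k).eq_empty_or_nonempty with he | ⟨p₀, hp₀⟩
    · rw [he, Finset.sum_empty]
      have := ha k
      positivity
    · rw [Finset.mem_filter] at hp₀
      obtain ⟨hp1, hp2, _, hp3, hp4⟩ := hF p₀ hp₀.1
      have hx : 1 ≤ p₀.1 * p₀.2 := Nat.mul_pos hp1 hp2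
      have e1 : (p₀.1 : ℝ) * p₀.2 ≤ (4 : ℝ) ^ k := by
        have := clog_le (x := p₀.1 * p₀.2)
        rw [← hp₀.2]
        push_cast at this
        exact this
      have e2 : (4 : ℝ) ^ k ≤ 4 * Z₂ := by
        have := lt_clog hx
        rw [← hp₀.2]
        push_cast at this
        exact this.trans (by linarith)
      have e3 : ∑ p ∈ F with κ p = k, 2 * ((4 : ℝ) ^ κ p) ^ (-(1 / 2) + δ) *
          KK A B u (Real.log p.1 - Real.log p.2) = 2 * ((4 : ℝ) ^ k) ^ (-(1 / 2) + δ) *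
          ∑ p ∈ F with κ p = k, KK A B u (Real.log p.1 - Real.log p.2) := by
        rw [Finset.mul_sum]
        refine Finset.sum_congr rfl fun p hp => ?_
        rw [(Finset.mem_filter.1 hp).2]
      rw [e3]
      have e4 := hLS A B T μ ν u ((2 : ℝ) ^ k) (F.filter fun p => κ p = k) hA hB hu
        (one_le_pow₀ (by norm_num)) (fun p hp => by
          obtain ⟨h1, h2⟩ := Finset.mem_filter.1 hp
          obtain ⟨hq1, hq2, hq3, _, _⟩ := hF p h1
          refine ⟨hq1, hq2, hq3, ?_⟩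
          have h3 := clog_le (x := p.1 * p.2)
          have h4 : ((2 : ℝ) ^ k) ^ 2 = 4 ^ k := by
            rw [← pow_mul, mul_comm, pow_mul]; norm_num
          rw [h4, ← h2]
          push_cast at h3
          exact h3)
      have e5 : ((2 : ℝ) ^ k) ^ 2 = 4 ^ k := by
        rw [← pow_mul, mul_comm, pow_mul]; norm_num
      rw [e5, Real.log_pow] at e4
      set Q : ℝ := (4 : ℝ) ^ k with hQ
      have hQ0 : 0 < Q := by positivity
      have e6 : (1 + (k : ℝ) * Real.log 2) ^ 2 ≤ (1 + (k : ℝ)) ^ 2 := by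
        have h3 : Real.log 2 ≤ 1 := by
          have := Real.log_two_lt_d9
          linarith
        have h4 : 0 ≤ Real.log 2 := Real.log_nonneg (by norm_num)
        have h5 : (k : ℝ) * Real.log 2 ≤ k := by
          have : (0 : ℝ) ≤ k := by positivity
          nlinarith
        gcongr
      have e7 : Q ^ (-ε) = ((4 : ℝ) ^ (-ε)) ^ k := by
        rw [hQ, ← Real.rpow_natCast, ← Real.rpow_natCast, ← Real.rpow_mul (by norm_num),
          ← Real.rpow_mul (by norm_num), mul_comm]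
      have e8 : Q ^ (-(1 / 2) + δ) = Q ^ (-ε) * Q ^ (-(1 / 2) + (δ + ε)) := by
        rw [← Real.rpow_add hQ0]
        congr 1
        ring
      have e9 : Q ^ (-(1 / 2) + (δ + ε)) ≤ Z₁ ^ (-(1 / 2) + (δ + ε)) :=
        Real.rpow_le_rpow_of_nonpos (by linarith) (hp3.trans e1) (by linarith)
      have e10 : Q ^ (-(1 / 2) + (δ + ε)) * Q ≤ 4 * Z₂ ^ (1 / 2 + (δ + ε)) := by
        calc Q ^ (-(1 / 2) + (δ + ε)) * Q = Q ^ (1 / 2 + (δ + ε)) := by
              nth_rewrite 2 [← Real.rpow_one Q]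
              rw [← Real.rpow_add hQ0]
              congr 1
              ring
          _ ≤ (4 * Z₂) ^ (1 / 2 + (δ + ε)) := Real.rpow_le_rpow hQ0.le e2 (by linarith)
          _ = (4 : ℝ) ^ (1 / 2 + (δ + ε)) * Z₂ ^ (1 / 2 + (δ + ε)) :=
              Real.mul_rpow (by norm_num) (by linarith)
          _ ≤ 4 * Z₂ ^ (1 / 2 + (δ + ε)) := by
              refine mul_le_mul_of_nonneg_right ?_ (by positivity)
              calc (4 : ℝ) ^ (1 / 2 + (δ + ε)) ≤ (4 : ℝ) ^ (1 : ℝ) :=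
                    Real.rpow_le_rpow_of_exponent_le (by norm_num) (by linarith)
                _ = 4 := Real.rpow_one 4
      have e11 : Q ^ (-(1 / 2) + (δ + ε)) * (u + Q) ≤ 4 * E := by
        have h3 : 0 ≤ u * Z₁ ^ (-(1 / 2) + (δ + ε)) := by positivity
        have h4 : u * Q ^ (-(1 / 2) + (δ + ε)) ≤ u * Z₁ ^ (-(1 / 2) + (δ + ε)) :=
          mul_le_mul_of_nonneg_left e9 (by linarith)
        rw [hE]
        nlinarith
      calc 2 * Q ^ (-(1 / 2) + δ) * ∑ p ∈ F with κ p = k, KK A B u (Real.log p.1 - Real.log p.2)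
          ≤ 2 * Q ^ (-(1 / 2) + δ) * (C * ((u + Q) * (1 + (k : ℝ) * Real.log 2) ^ 2) *
              Lam A B μ ν) := mul_le_mul_of_nonneg_left e4 (by positivity)
        _ ≤ 2 * Q ^ (-(1 / 2) + δ) * (C * ((u + Q) * (1 + (k : ℝ)) ^ 2) * Lam A B μ ν) := by
              refine mul_le_mul_of_nonneg_left ?_ (by positivity)
              refine mul_le_mul_of_nonneg_right ?_ hL
              refine mul_le_mul_of_nonneg_left ?_ hC.le
              exact mul_le_mul_of_nonneg_left e6 (by linarith)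
        _ = (a k) * (2 * C * (Q ^ (-(1 / 2) + (δ + ε)) * (u + Q)) * Lam A B μ ν) := by
              simp only [a]
              rw [e8, e7]
              ring
        _ ≤ (a k) * (2 * C * (4 * E) * Lam A B μ ν) := by
              refine mul_le_mul_of_nonneg_left ?_ (ha k)
              refine mul_le_mul_of_nonneg_right ?_ hL
              exact mul_le_mul_of_nonneg_left e11 (by linarith)
        _ = a k * (8 * C * E * Lam A B μ ν) := by ring
  -- the sum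
  have h3 : ∀ p ∈ F, κ p ∈ Finset.range (F.sup κ + 1) := fun p hp =>
    Finset.mem_range.2 (Nat.lt_succ_of_le (Finset.le_sup hp))
  calc ∑ p ∈ F, ((p.1 : ℝ) * p.2) ^ (-(1 / 2) + δ) * KK A B u (Real.log p.1 - Real.log p.2)
      ≤ ∑ p ∈ F, 2 * ((4 : ℝ) ^ κ p) ^ (-(1 / 2) + δ) *
          KK A B u (Real.log p.1 - Real.log p.2) := Finset.sum_le_sum h1
    _ = ∑ k ∈ Finset.range (F.sup κ + 1), ∑ p ∈ F with κ p = k,
          2 * ((4 : ℝ) ^ κ p) ^ (-(1 / 2) + δ) * KK A B u (Real.log p.1 - Real.log p.2) :=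
        (Finset.sum_fiberwise_of_maps_to h3 _).symm
    _ ≤ ∑ k ∈ Finset.range (F.sup κ + 1), a k * (8 * C * E * Lam A B μ ν) :=
        Finset.sum_le_sum fun k _ => h2 k
    _ = (∑ k ∈ Finset.range (F.sup κ + 1), a k) * (8 * C * E * Lam A B μ ν) := by
        rw [Finset.sum_mul]
    _ ≤ S * (8 * C * E * Lam A B μ ν) := by
        refine mul_le_mul_of_nonneg_right (hsum.sum_le_tsum _ fun k _ => ha k) (by positivity)
    _ ≤ (8 * C * S + 1) * E * Lam A B μ ν := by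
        have : 0 ≤ E * Lam A B μ ν := by positivity
        nlinarith

theorem pf_DY (hLS : T_LS) (hKB : T_KB) : T_DY := by
  intro δ h0 h1
  obtain ⟨C, hC, h⟩ := core hLS hKB δ (1 / 4 - δ) h0 (by linarith) (by linarith)
  refine ⟨C, hC, fun A B T μ ν u Z₁ Z₂ F hA hB hu hZ₁ hZ hF => ?_⟩
  have h2 := h A B T μ ν u Z₁ Z₂ F hA hB hu hZ₁ hZ hF
  have e1 : -(1 / 2) + (δ + (1 / 4 - δ)) = (-(1 / 4) : ℝ) := by ring
  have e2 : 1 / 2 + (δ + (1 / 4 - δ)) = (3 / 4 : ℝ) := by ring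
  rwa [e1, e2] at h2

theorem pf_DZ (hLS : T_LS) (hKB : T_KB) : T_DZ := by
  intro δ h0 h1
  obtain ⟨C, hC, h⟩ := core hLS hKB δ δ h0.le h0 (by linarith)
  refine ⟨C, hC, fun A B T μ ν u Z₁ Z₂ F hA hB hu hZ₁ hZ hF => ?_⟩
  have h2 := h A B T μ ν u Z₁ Z₂ F hA hB hu hZ₁ hZ hF
  have e1 : δ + δ = 2 * δ := by ring
  rwa [e1] at h2

end Pool.Agent.H19.OT
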