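import Pool.Agent.H88.OT.Targets

/-!
# The integral of the Gamma weight over `u`
-/

set_option autoImplicit false

open MeasureTheory Set Filter Topology

namespace Pool.Agent.H19.OT

open Pool.Agent.H88.OT
open Pool.Agent.H28.MZ (W)

/-- the Gamma density -/
noncomputable def gP (N : ℕ) (x : ℝ) : ℝ :=
  (N : ℝ) ^ N / Real.Gamma N * (x ^ (N - 1) * Real.exp (-(N * x)))

/-- the distribution function -/
noncomputable def GP (N : ℕ) (z : ℝ) : ℝ := ∫ x in (0 : ℝ)..z, gP N x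

theorem gP_cont (N : ℕ) : Continuous (gP N) := by
  unfold gP
  fun_prop

theorem gP_nonneg {N : ℕ} (hN : 1 ≤ N) {x : ℝ} (hx : 0 ≤ x) : 0 ≤ gP N x := by
  unfold gP
  have : 0 < Real.Gamma N := Real.Gamma_pos_of_pos (by exact_mod_cast hN)
  positivity

theorem gP_integral {N : ℕ} (hN : 1 ≤ N) : ∫ x in Ioi (0 : ℝ), gP N x = 1 := by
  have hN' : (0 : ℝ) < N := by exact_mod_cast hN
  have hG : 0 < Real.Gamma N := Real.Gamma_pos_of_pos hN'
  have h1 := Real.integral_rpow_mul_exp_neg_mul_Ioi hN' hN'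
  have h2 : ∀ x : ℝ, gP N x = (N : ℝ) ^ N / Real.Gamma N *
      (x ^ ((N : ℝ) - 1) * Real.exp (-(N * x))) := by
    intro x
    unfold gP
    have h3 : ((N : ℝ) - 1) = ((N - 1 : ℕ) : ℝ) := by
      rw [Nat.cast_sub hN, Nat.cast_one]
    rw [h3, Real.rpow_natCast]
  simp_rw [h2]
  rw [integral_const_mul, h1, Real.rpow_natCast]
  have h4 : (N : ℝ) ^ N * (1 / N) ^ N = 1 := by
    rw [← mul_pow, mul_one_div_cancel hN'.ne', one_pow]
  calc (N : ℝ) ^ N / Real.Gamma N * ((1 / N) ^ N * Real.Gamma N)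
      = ((N : ℝ) ^ N * (1 / N) ^ N) * (Real.Gamma N / Real.Gamma N) := by ring
    _ = 1 := by rw [h4, div_self hG.ne', one_mul]

theorem gP_int {N : ℕ} (hN : 1 ≤ N) : IntegrableOn (gP N) (Ioi 0) := by
  by_contra h
  have h1 := integral_undef h
  have h2 := gP_integral hN
  rw [h2] at h1
  exact one_ne_zero h1

theorem GP_zero (N : ℕ) : GP N 0 = 0 := intervalIntegral.integral_same

theorem GP_mono {N : ℕ} (hN : 1 ≤ N) {y z : ℝ} (hy : 0 ≤ y) (hyz : y ≤ z) : GP N y ≤ GP N z := by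
  have h1 : GP N z - GP N y = ∫ x in y..z, gP N x := by
    unfold GP
    exact intervalIntegral.integral_interval_sub_left ((gP_cont N).intervalIntegrable _ _)
      ((gP_cont N).intervalIntegrable _ _)
  have h2 : 0 ≤ ∫ x in y..z, gP N x :=
    intervalIntegral.integral_nonneg hyz fun x hx => gP_nonneg hN (hy.trans hx.1)
  linarith

theorem GP_nonneg {N : ℕ} (hN : 1 ≤ N) {z : ℝ} (hz : 0 ≤ z) : 0 ≤ GP N z := by
  rw [← GP_zero N]
  exact GP_mono hN le_rfl hz

theorem GP_tendsto {N : ℕ} (hN : 1 ≤ N) : Tendsto (GP N) atTop (𝓝 1) := by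
  rw [← gP_integral hN]
  exact intervalIntegral_tendsto_integral_Ioi 0 (gP_int hN) tendsto_id

theorem GP_le_one {N : ℕ} (hN : 1 ≤ N) {z : ℝ} (hz : 0 ≤ z) : GP N z ≤ 1 := by
  refine ge_of_tendsto (GP_tendsto hN) ?_
  filter_upwards [eventually_ge_atTop z] with y hy
  exact GP_mono hN hz hy

theorem GP_deriv (N : ℕ) (z : ℝ) : HasDerivAt (GP N) (gP N z) z :=
  intervalIntegral.integral_hasDerivAt_right ((gP_cont N).intervalIntegrable _ _)
    ((gP_cont N).stronglyMeasurableAtFilter _ _) (gP_cont N).continuousAt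

theorem int_W {N : ℕ} (hN : 1 ≤ N) {t u₀ u₁ : ℝ} (h0 : 0 < u₀) (h1 : u₀ ≤ u₁) :
    (∫ u in u₀..u₁, W N u t / u) = GP N (t / u₀) - GP N (t / u₁) := by
  have hd : ∀ u ∈ uIcc u₀ u₁, HasDerivAt (fun u => - GP N (t / u)) (W N u t / u) u := by
    intro u hu
    rw [uIcc_of_le h1] at hu
    have hu0 : 0 < u := lt_of_lt_of_le h0 hu.1
    have h2 : HasDerivAt (fun u : ℝ => t / u) (-(t / u ^ 2)) u := by
      have h3 := (hasDerivAt_inv hu0.ne').const_mul t
      have h4 : t * -(u ^ 2)⁻¹ = -(t / u ^ 2) := by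
        rw [div_eq_mul_inv]; ring
      rw [h4] at h3
      exact h3
    have h3 := ((GP_deriv N (t / u)).comp u h2).neg
    have h4 : -(gP N (t / u) * -(t / u ^ 2)) = W N u t / u := by
      unfold gP W
      obtain ⟨M, rfl⟩ : ∃ M, N = M + 1 := ⟨N - 1, by omega⟩
      have h5 : (((M + 1 : ℕ) : ℝ) * (t / u)) = ((M + 1 : ℕ) : ℝ) * t / u := by ring
      rw [h5, Nat.add_sub_cancel, pow_succ (t / u) M]
      field_simp
    rw [h4] at h3
    exact h3
  have hc : ContinuousOn (fun u => W N u t / u) (uIcc u₀ u₁) := by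
    rw [uIcc_of_le h1]
    unfold W
    have hne : ∀ u ∈ Icc u₀ u₁, u ≠ 0 := fun u hu => (lt_of_lt_of_le h0 hu.1).ne'
    refine ContinuousOn.div ?_ continuousOn_id hne
    refine ContinuousOn.mul (ContinuousOn.mul continuousOn_const ?_) ?_
    · exact (continuousOn_const.div continuousOn_id hne).pow N
    · exact (continuousOn_const.div continuousOn_id hne).neg.rexp
  rw [intervalIntegral.integral_eq_sub_of_hasDerivAt hd hc.intervalIntegrable]
  ring

theorem pf_PH : T_PH := by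
  refine ⟨fun N t u₀ u₁ hN ht h0 h1 => ?_, fun N ε hN hε => ?_⟩
  · rw [int_W hN h0 h1]
    have hu1 : 0 < u₁ := lt_of_lt_of_le h0 h1
    have h2 : 0 ≤ t / u₁ := by positivity
    have h3 : t / u₁ ≤ t / u₀ := div_le_div_of_nonneg_left ht.le h0 h1
    have h4 := GP_mono hN h2 h3
    have h5 := GP_nonneg hN h2
    have h6 := GP_le_one hN (h2.trans h3)
    constructor <;> linarith
  · have h1 : ∀ᶠ z in atTop, 1 - ε / 2 < GP N z :=
      (GP_tendsto hN).eventually (lt_mem_nhds (by linarith))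
    have h2 : ∀ᶠ K in atTop, GP N (1 / K) < ε / 2 := by
      have h3 : Tendsto (fun K : ℝ => GP N (1 / K)) atTop (𝓝 (GP N 0)) := by
        refine ((GP_deriv N 0).continuousAt.tendsto).comp ?_
        exact tendsto_const_nhds.div_atTop tendsto_id
      rw [GP_zero] at h3
      exact h3.eventually (gt_mem_nhds (by linarith))
    obtain ⟨K, hK1, hK2, hK3⟩ := (h1.and (h2.and (eventually_ge_atTop (1 : ℝ)))).exists
    refine ⟨K, hK3, fun t u₀ u₁ h0 hK0 hKt => ?_⟩
    have hK : 0 < K := by linarith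
    have ht : 0 < t := lt_of_lt_of_le (by positivity) hK0
    have hu1 : 0 < u₁ := lt_of_lt_of_le (by positivity) hKt
    have h01 : u₀ ≤ u₁ := by nlinarith
    rw [int_W hN h0 h01]
    have h3 : K ≤ t / u₀ := (le_div_iff₀ h0).2 hK0
    have h4 : t / u₁ ≤ 1 / K := by
      rw [div_le_div_iff₀ hu1 hK]
      linarith
    have h5 := GP_mono hN hK.le h3
    have h6 := GP_mono hN (by positivity : 0 ≤ t / u₁) h4
    linarith

end Pool.Agent.H19.OT
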