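import Pool.Agent.H88.OT.Targets

/-!
# Selberg's weights
-/

set_option autoImplicit false

open Finset

namespace Pool.Agent.H19.OT

open Pool.Agent.H88.OT
open Pool.Agent.H28.MZ (Mol)

theorem mem_SF {q Y d : ℕ} : d ∈ SF q Y ↔ (1 ≤ d ∧ d ≤ Y) ∧ Squarefree d ∧ Nat.Coprime d q := by
  classical
  unfold SF
  rw [Finset.mem_filter, Finset.mem_Icc]

theorem SF_of_dvd {q Y d e : ℕ} (hd : d ∈ SF q Y) (he : e ∣ d) : e ∈ SF q Y := by
  rw [mem_SF] at hd ⊢
  obtain ⟨⟨h1, h2⟩, h3, h4⟩ := hd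
  exact ⟨⟨Nat.pos_of_dvd_of_pos he h1, (Nat.le_of_dvd h1 he).trans h2⟩, h3.squarefree_of_dvd he,
    Nat.Coprime.coprime_dvd_left he h4⟩

theorem fG_pos {q Y : ℕ} (hY : 1 ≤ Y) : 0 < fG q Y := by
  unfold fG
  refine Finset.sum_pos (fun d hd => ?_) ⟨1, mem_SF.2 ⟨⟨le_rfl, hY⟩, squarefree_one, Nat.coprime_one_left q⟩⟩
  have : 0 < Nat.totient d := Nat.totient_pos.2 (mem_SF.1 hd).1.1
  positivity

theorem fy_of_mem {q Y d : ℕ} (hd : d ∈ SF q Y) :
    fy q Y d = (ArithmeticFunction.moebius d : ℝ) / ((Nat.totient d : ℝ) * fG q Y) := by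
  unfold fy
  rw [if_pos hd]

theorem fy_of_notMem {q Y d : ℕ} (hd : d ∉ SF q Y) : fy q Y d = 0 := by
  unfold fy
  rw [if_neg hd]

/-- the sum of the reciprocals of Euler's function over the divisors -/
theorem sum_inv_phi {h : ℕ} (h0 : 1 ≤ h) (hs : Squarefree h) :
    ∑ l ∈ h.divisors, 1 / (Nat.totient l : ℝ) = h / Nat.totient h := by
  have hφ : (0 : ℝ) < Nat.totient h := by exact_mod_cast Nat.totient_pos.2 h0
  have h1 : ∀ l ∈ h.divisors, 1 / (Nat.totient l : ℝ) = (Nat.totient (h / l) : ℝ) / Nat.totient h := by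
    intro l hl
    have hl' := Nat.dvd_of_mem_divisors hl
    obtain ⟨m, rfl⟩ := hl'
    have hl0 : 0 < l := Nat.pos_of_ne_zero (by rintro rfl; simp at h0)
    have hc : Nat.Coprime l m := Nat.coprime_of_squarefree_mul hs
    rw [Nat.mul_div_cancel_left m hl0, Nat.totient_mul hc]
    have hm0 : 0 < m := Nat.pos_of_ne_zero (by rintro rfl; simp at h0)
    have h2 : (0 : ℝ) < Nat.totient l := by exact_mod_cast Nat.totient_pos.2 hl0
    have h3 : (0 : ℝ) < Nat.totient m := by exact_mod_cast Nat.totient_pos.2 hm0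
    push_cast
    field_simp
  rw [Finset.sum_congr rfl h1, ← Finset.sum_div]
  have h2 : ∑ l ∈ h.divisors, Nat.totient (h / l) = h := by
    rw [Nat.sum_div_divisors h Nat.totient, Nat.sum_totient]
  have h3 : ∑ l ∈ h.divisors, (Nat.totient (h / l) : ℝ) = h := by exact_mod_cast h2
  rw [h3]

theorem sum_mu (d : ℕ) : ∑ h ∈ d.divisors, (ArithmeticFunction.moebius (d / h) : ℝ) =
    if d = 1 then 1 else 0 := by
  have h1 : ∑ h ∈ d.divisors, ArithmeticFunction.moebius (d / h) = if d = 1 then 1 else 0 := by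
    rw [Nat.sum_div_divisors d (fun n => ArithmeticFunction.moebius n),
      ← ArithmeticFunction.coe_mul_zeta_apply, ArithmeticFunction.moebius_mul_coe_zeta,
      ArithmeticFunction.one_apply]
  have h2 := congrArg (Int.cast : ℤ → ℝ) h1
  push_cast at h2
  exact h2

theorem sum_mu_log (d : ℕ) : ∑ h ∈ d.divisors, (ArithmeticFunction.moebius (d / h) : ℝ) * Real.log h =
    ArithmeticFunction.vonMangoldt d := by
  rw [← ArithmeticFunction.moebius_mul_log_eq_vonMangoldt, ArithmeticFunction.mul_apply,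
    Nat.sum_divisorsAntidiagonal' (fun a b => ((ArithmeticFunction.moebius : ArithmeticFunction ℝ) a) *
      ArithmeticFunction.log b)]
  refine Finset.sum_congr rfl fun h _ => ?_
  rw [ArithmeticFunction.intCoe_apply, ArithmeticFunction.log_apply]

open scoped Classical in
/-- sums over the multiples of `e` which divide `d` -/
theorem sum_inner {q Y d e : ℕ} (he : 1 ≤ e) (hd : d ∈ SF q Y) (f : ℕ → ℝ) :
    ∑ h ∈ ((Finset.Icc 1 Y).filter fun h => e ∣ h).filter (fun h => h ∣ d),
      (ArithmeticFunction.moebius (d / h) : ℝ) * f h =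
    if e ∣ d then ∑ h ∈ (d / e).divisors,
      (ArithmeticFunction.moebius (d / e / h) : ℝ) * f (e * h) else 0 := by
  obtain ⟨⟨h1, h2⟩, h3, h4⟩ := mem_SF.1 hd
  split_ifs with hed
  · obtain ⟨m, rfl⟩ := hed
    rw [Nat.mul_div_cancel_left m he]
    have hm : m ≠ 0 := by rintro rfl; simp at h1
    have e1 : ((Finset.Icc 1 Y).filter fun h => e ∣ h).filter (fun h => h ∣ e * m) =
        m.divisors.image fun h => e * h := by
      ext h
      rw [Finset.mem_filter, Finset.mem_filter, Finset.mem_Icc, Finset.mem_image]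
      constructor
      · rintro ⟨⟨_, ⟨k, rfl⟩⟩, h7⟩
        exact ⟨k, Nat.mem_divisors.2 ⟨Nat.dvd_of_mul_dvd_mul_left he h7, hm⟩, rfl⟩
      · rintro ⟨k, hk, rfl⟩
        have hk' := Nat.dvd_of_mem_divisors hk
        have hk0 : 0 < k := Nat.pos_of_mem_divisors hk
        have h5 : e * k ∣ e * m := Nat.mul_dvd_mul_left e hk'
        exact ⟨⟨⟨Nat.mul_pos he hk0, (Nat.le_of_dvd h1 h5).trans h2⟩, dvd_mul_right _ _⟩, h5⟩
    rw [e1, Finset.sum_image (fun a _ b _ h => Nat.eq_of_mul_eq_mul_left he h)]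
    refine Finset.sum_congr rfl fun k _ => ?_
    rw [Nat.mul_div_mul_left m k he]
  · refine Finset.sum_eq_zero fun h hh => ?_
    rw [Finset.mem_filter, Finset.mem_filter] at hh
    exact absurd (hh.1.2.trans hh.2) hed

open scoped Classical in
/-- interchange of the sums -/
theorem sum_swap (q Y e : ℕ) (he : 1 ≤ e) (f : ℕ → ℝ) :
    ∑ h ∈ (Finset.Icc 1 Y).filter (fun h => e ∣ h), fb q Y h / h * f h =
      ∑ d ∈ SF q Y, fy q Y d * (if e ∣ d then ∑ h ∈ (d / e).divisors,
        (ArithmeticFunction.moebius (d / e / h) : ℝ) * f (e * h) else 0) := by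
  have h1 : ∀ h ∈ (Finset.Icc 1 Y).filter (fun h => e ∣ h), fb q Y h / h * f h =
      ∑ d ∈ SF q Y, if h ∣ d then
        fy q Y d * ((ArithmeticFunction.moebius (d / h) : ℝ) * f h) else 0 := by
    intro h hh
    have h0 : (h : ℝ) ≠ 0 := by
      have := (Finset.mem_Icc.1 (Finset.mem_filter.1 hh).1).1
      positivity
    unfold fb
    rw [mul_div_cancel_left₀ _ h0, Finset.sum_mul, Finset.sum_filter]
    refine Finset.sum_congr rfl fun d _ => ?_
    split_ifs
    · ring
    · rfl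
  rw [Finset.sum_congr rfl h1, Finset.sum_comm]
  refine Finset.sum_congr rfl fun d hd => ?_
  rw [← sum_inner he hd f, Finset.mul_sum, ← Finset.sum_filter]

theorem fb_one {q Y : ℕ} (hY : 1 ≤ Y) : fb q Y 1 = 1 := by
  classical
  have hG := fG_pos (q := q) hY
  unfold fb
  have h1 : (SF q Y).filter (fun d => 1 ∣ d) = SF q Y :=
    Finset.filter_true_of_mem fun d _ => one_dvd d
  rw [h1, Nat.cast_one, one_mul]
  have h2 : ∀ d ∈ SF q Y, (ArithmeticFunction.moebius (d / 1) : ℝ) * fy q Y d =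
      1 / (Nat.totient d : ℝ) / fG q Y := by
    intro d hd
    rw [fy_of_mem hd, Nat.div_one]
    have h3 : ((ArithmeticFunction.moebius d : ℤ) : ℝ) ^ 2 = 1 := by
      exact_mod_cast ArithmeticFunction.moebius_sq_eq_one_of_squarefree (mem_SF.1 hd).2.1
    calc (ArithmeticFunction.moebius d : ℝ) *
          ((ArithmeticFunction.moebius d : ℝ) / ((Nat.totient d : ℝ) * fG q Y))
        = (ArithmeticFunction.moebius d : ℝ) ^ 2 / ((Nat.totient d : ℝ) * fG q Y) := by ring
      _ = _ := by rw [h3, div_div]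
  rw [Finset.sum_congr rfl h2, ← Finset.sum_div]
  exact div_self hG.ne'

theorem fb_cop {q Y h : ℕ} (hc : ¬ Nat.Coprime h q) : fb q Y h = 0 := by
  classical
  unfold fb
  rw [Finset.filter_false_of_mem, Finset.sum_empty, mul_zero]
  intro d hd hhd
  exact hc (Nat.Coprime.coprime_dvd_left hhd (mem_SF.1 hd).2.2)

theorem abs_mu_le (n : ℕ) : |(ArithmeticFunction.moebius n : ℝ)| ≤ 1 := by
  exact_mod_cast ArithmeticFunction.abs_moebius_le_one (n := n)

open scoped Classical in
/-- the main inequality -/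
theorem sum_le_fG {q Y h : ℕ} (h0 : 1 ≤ h) (hs : Squarefree h) :
    (h : ℝ) * ∑ d ∈ (SF q Y).filter (fun d => h ∣ d), 1 / (Nat.totient d : ℝ) ≤ fG q Y := by
  have hφ : (0 : ℝ) < Nat.totient h := by exact_mod_cast Nat.totient_pos.2 h0
  let P := h.divisors ×ˢ (SF q Y).filter fun d => h ∣ d
  have hfacts : ∀ p ∈ P, ∃ m, p.2 = h * m ∧ p.1 ∣ h ∧ Nat.Coprime h m ∧ 0 < p.1 ∧ 0 < m ∧
      p.1 * m ∈ SF q Y := by
    rintro ⟨l, d⟩ hp
    obtain ⟨hl, hd⟩ := Finset.mem_product.1 hp
    obtain ⟨hd1, m, hm⟩ := Finset.mem_filter.1 hd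
    have hl1 := Nat.dvd_of_mem_divisors hl
    have hl0 := Nat.pos_of_mem_divisors hl
    obtain ⟨⟨h1, h2⟩, h3, h4⟩ := mem_SF.1 hd1
    change d = h * m at hm
    have hd2 : h * m ∈ SF q Y := by rw [← hm]; exact hd1
    refine ⟨m, hm, hl1, ?_, hl0, ?_, SF_of_dvd hd2 (Nat.mul_dvd_mul_right hl1 m)⟩
    · exact Nat.coprime_of_squarefree_mul (mem_SF.1 hd2).2.1
    · exact Nat.pos_of_ne_zero (by rintro rfl; simp at hm; omega)
  have h1 : (h : ℝ) * ∑ d ∈ (SF q Y).filter (fun d => h ∣ d), 1 / (Nat.totient d : ℝ) =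
      ∑ p ∈ P, 1 / (Nat.totient (p.1 * (p.2 / h)) : ℝ) := by
    rw [Finset.sum_product_right, Finset.mul_sum]
    refine Finset.sum_congr rfl fun d hd => ?_
    have h2 : ∀ l ∈ h.divisors, 1 / (Nat.totient (l * (d / h)) : ℝ) =
        1 / (Nat.totient l : ℝ) * (1 / (Nat.totient (d / h) : ℝ)) := by
      intro l hl
      obtain ⟨m, hm1, hm2, hm3, _⟩ := hfacts (l, d) (Finset.mem_product.2 ⟨hl, hd⟩)
      have hm1' : d = h * m := hm1
      rw [hm1', Nat.mul_div_cancel_left m h0,
        Nat.totient_mul (Nat.Coprime.coprime_dvd_left hm2 hm3)]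
      push_cast
      rw [one_div_mul_one_div]
    change _ = ∑ l ∈ h.divisors, 1 / (Nat.totient (l * (d / h)) : ℝ)
    rw [Finset.sum_congr rfl h2, ← Finset.sum_mul, sum_inv_phi h0 hs]
    obtain ⟨m, hm1, hm2, hm3, _, hm4, _⟩ := hfacts (1, d) (Finset.mem_product.2
      ⟨Nat.mem_divisors.2 ⟨one_dvd h, by omega⟩, hd⟩)
    have hm1' : d = h * m := hm1
    have hφm : (0 : ℝ) < Nat.totient m := by exact_mod_cast Nat.totient_pos.2 hm4
    rw [hm1', Nat.mul_div_cancel_left m h0, Nat.totient_mul hm3]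
    push_cast
    field_simp
  rw [h1]
  unfold fG
  have hinj : Set.InjOn (fun p : ℕ × ℕ => p.1 * (p.2 / h)) P := by
    rintro ⟨l, d⟩ hp ⟨l', d'⟩ hp' heq
    obtain ⟨m, hm1, hm2, hm3, hm4, hm5, _⟩ := hfacts _ hp
    obtain ⟨m', hm1', hm2', hm3', hm4', hm5', _⟩ := hfacts _ hp'
    have a1 : d = h * m := hm1
    have a2 : d' = h * m' := hm1'
    change l * (d / h) = l' * (d' / h) at heq
    rw [a1, a2, Nat.mul_div_cancel_left m h0, Nat.mul_div_cancel_left m' h0] at heq
    have b1 : Nat.gcd (l * m) h = l := by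
      rw [Nat.Coprime.gcd_mul_right_cancel _ hm3.symm]
      exact Nat.gcd_eq_left hm2
    have b2 : Nat.gcd (l' * m') h = l' := by
      rw [Nat.Coprime.gcd_mul_right_cancel _ hm3'.symm]
      exact Nat.gcd_eq_left hm2'
    have b3 : l = l' := by rw [← b1, heq, b2]
    subst b3
    have b4 : m = m' := Nat.eq_of_mul_eq_mul_left hm4 heq
    subst b4
    rw [a1, a2]
  rw [← Finset.sum_image (f := fun n => 1 / (Nat.totient n : ℝ)) hinj]
  refine Finset.sum_le_sum_of_subset_of_nonneg ?_ fun n _ _ => by positivity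
  intro n hn
  obtain ⟨p, hp, rfl⟩ := Finset.mem_image.1 hn
  obtain ⟨m, hm1, _, _, _, _, hm6⟩ := hfacts p hp
  change p.1 * (p.2 / h) ∈ SF q Y
  rw [hm1, Nat.mul_div_cancel_left m h0]
  exact hm6

theorem fb_le {q Y : ℕ} (hY : 1 ≤ Y) (h : ℕ) : |fb q Y h| ≤ 1 := by
  classical
  have hG := fG_pos (q := q) hY
  rcases ((SF q Y).filter fun d => h ∣ d).eq_empty_or_nonempty with he | ⟨d₀, hd₀⟩
  · unfold fb
    rw [he, Finset.sum_empty, mul_zero, abs_zero]
    exact zero_le_one
  · obtain ⟨hd1, hd2⟩ := Finset.mem_filter.1 hd₀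
    obtain ⟨⟨h1, _⟩, h3, _⟩ := mem_SF.1 (SF_of_dvd hd1 hd2)
    unfold fb
    rw [abs_mul, Nat.abs_cast]
    have h5 : |∑ d ∈ (SF q Y).filter (fun d => h ∣ d),
        (ArithmeticFunction.moebius (d / h) : ℝ) * fy q Y d| ≤
        (∑ d ∈ (SF q Y).filter (fun d => h ∣ d), 1 / (Nat.totient d : ℝ)) / fG q Y := by
      rw [Finset.sum_div]
      refine (Finset.abs_sum_le_sum_abs _ _).trans (Finset.sum_le_sum fun d hd => ?_)
      rw [fy_of_mem (Finset.mem_filter.1 hd).1, abs_mul, abs_div]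
      have hφ : (0 : ℝ) < Nat.totient d := by
        exact_mod_cast Nat.totient_pos.2 (mem_SF.1 (Finset.mem_filter.1 hd).1).1.1
      rw [abs_of_pos (mul_pos hφ hG)]
      calc |(ArithmeticFunction.moebius (d / h) : ℝ)| *
            (|(ArithmeticFunction.moebius d : ℝ)| / ((Nat.totient d : ℝ) * fG q Y))
          ≤ 1 * (1 / ((Nat.totient d : ℝ) * fG q Y)) := by
            gcongr
            · exact abs_mu_le _
            · exact abs_mu_le _
        _ = 1 / (Nat.totient d : ℝ) / fG q Y := by rw [one_mul, div_div]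
    have h6 := sum_le_fG (q := q) (Y := Y) h1 h3
    calc (h : ℝ) * |∑ d ∈ (SF q Y).filter (fun d => h ∣ d),
          (ArithmeticFunction.moebius (d / h) : ℝ) * fy q Y d|
        ≤ (h : ℝ) * ((∑ d ∈ (SF q Y).filter (fun d => h ∣ d), 1 / (Nat.totient d : ℝ)) /
            fG q Y) := mul_le_mul_of_nonneg_left h5 (by positivity)
      _ = ((h : ℝ) * ∑ d ∈ (SF q Y).filter (fun d => h ∣ d), 1 / (Nat.totient d : ℝ)) /
            fG q Y := by ring
      _ ≤ 1 := by
          rw [div_le_one hG]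
          exact h6

theorem sb_two (q Y e : ℕ) (he : 1 ≤ e) :
    ∑ h ∈ (Finset.Icc 1 Y).filter (fun h => e ∣ h), fb q Y h / h = fy q Y e := by
  classical
  have h1 := sum_swap q Y e he (fun _ => 1)
  simp only [mul_one] at h1
  rw [h1]
  have h2 : ∀ d ∈ SF q Y, fy q Y d * (if e ∣ d then ∑ h ∈ (d / e).divisors,
      (ArithmeticFunction.moebius (d / e / h) : ℝ) else 0) = if d = e then fy q Y d else 0 := by
    intro d hd
    by_cases hed : e ∣ d
    · rw [if_pos hed, sum_mu]
      have hd0 := (mem_SF.1 hd).1.1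
      by_cases hde : d = e
      · rw [if_pos hde, if_pos, mul_one]
        rw [hde]; exact Nat.div_self he
      · rw [if_neg hde, if_neg, mul_zero]
        intro h3
        apply hde
        have := Nat.div_mul_cancel hed
        rw [h3, one_mul] at this
        exact this.symm
    · rw [if_neg hed, mul_zero, if_neg]
      rintro rfl
      exact hed dvd_rfl
  rw [Finset.sum_congr rfl h2, Finset.sum_ite_eq']
  split_ifs with h3
  · rfl
  · exact (fy_of_notMem h3).symm

theorem fy_mul_prime {q Y e p : ℕ} (he : e ∈ SF q Y) (hp : p.Prime) (hpe : ¬ p ∣ e)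
    (hep : e * p ∈ SF q Y) : fy q Y (e * p) = - fy q Y e / ((p : ℝ) - 1) := by
  have hc : Nat.Coprime e p := ((Nat.Prime.coprime_iff_not_dvd hp).2 hpe).symm
  have hp1 : ((Nat.totient p : ℕ) : ℝ) = (p : ℝ) - 1 := by
    rw [Nat.totient_prime hp, Nat.cast_sub hp.one_le, Nat.cast_one]
  rw [fy_of_mem hep, fy_of_mem he, Nat.totient_mul hc,
    ArithmeticFunction.isMultiplicative_moebius.map_mul_of_coprime hc,
    ArithmeticFunction.moebius_apply_prime hp]
  push_cast
  rw [hp1, mul_neg_one, neg_div, neg_div, mul_right_comm, div_div]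

open scoped Classical in
theorem sb_lam (q Y e : ℕ) (hY : 1 ≤ Y) (he : 1 ≤ e) :
    ∑ d ∈ SF q Y, fy q Y d * (if e ∣ d then ArithmeticFunction.vonMangoldt (d / e) else 0) =
      - fy q Y e * fP q Y e := by
  by_cases hes : e ∈ SF q Y
  · unfold fP
    rw [Finset.mul_sum]
    have h1 : ∀ p ∈ (Finset.Icc 1 (Y / e)).filter (fun p => p.Prime ∧ ¬ p ∣ e ∧ ¬ p ∣ q),
        e * p ∈ SF q Y := by
      intro p hp
      rw [Finset.mem_filter, Finset.mem_Icc] at hp
      obtain ⟨⟨hp1, hp2⟩, hp3, hp4, hp5⟩ := hp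
      obtain ⟨_, h3, h4⟩ := mem_SF.1 hes
      have hc : Nat.Coprime e p := ((Nat.Prime.coprime_iff_not_dvd hp3).2 hp4).symm
      refine mem_SF.2 ⟨⟨Nat.mul_pos he hp1, ?_⟩, ?_, ?_⟩
      · rw [mul_comm]
        exact (Nat.le_div_iff_mul_le he).1 hp2
      · exact (Nat.squarefree_mul hc).2 ⟨h3, hp3.squarefree⟩
      · exact Nat.Coprime.mul_left h4 ((Nat.Prime.coprime_iff_not_dvd hp3).2 hp5)
    have h2 : ∀ p ∈ (Finset.Icc 1 (Y / e)).filter (fun p => p.Prime ∧ ¬ p ∣ e ∧ ¬ p ∣ q),
        - fy q Y e * (Real.log p / ((p : ℝ) - 1)) = fy q Y (e * p) *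
          (if e ∣ e * p then ArithmeticFunction.vonMangoldt (e * p / e) else 0) := by
      intro p hp
      have hep := h1 p hp
      rw [Finset.mem_filter] at hp
      obtain ⟨_, hp3, hp4, _⟩ := hp
      rw [if_pos (dvd_mul_right _ _), Nat.mul_div_cancel_left p he,
        ArithmeticFunction.vonMangoldt_apply_prime hp3, fy_mul_prime hes hp3 hp4 hep]
      ring
    rw [Finset.sum_congr rfl h2,
      ← Finset.sum_image (f := fun d => fy q Y d *
        (if e ∣ d then ArithmeticFunction.vonMangoldt (d / e) else 0))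
        (g := fun p => e * p) (fun a _ b _ h => Nat.eq_of_mul_eq_mul_left he h)]
    symm
    refine Finset.sum_subset (fun d hd => ?_) fun d hd hd' => ?_
    · obtain ⟨p, hp, rfl⟩ := Finset.mem_image.1 hd
      exact h1 p hp
    · by_cases hed : e ∣ d
      · rw [if_pos hed]
        obtain ⟨m, rfl⟩ := hed
        rw [Nat.mul_div_cancel_left m he]
        by_cases hm : IsPrimePow m
        · exfalso
          apply hd'
          obtain ⟨⟨h3, h4⟩, h5, h6⟩ := mem_SF.1 hd
          have hms : Squarefree m := h5.squarefree_of_dvd (dvd_mul_left _ _)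
          have hmp : m.Prime := (Nat.squarefree_and_prime_pow_iff_prime).1 ⟨hms, hm⟩
          have hc : Nat.Coprime e m := Nat.coprime_of_squarefree_mul h5
          refine Finset.mem_image.2 ⟨m, Finset.mem_filter.2 ⟨Finset.mem_Icc.2 ⟨hmp.one_le, ?_⟩,
            hmp, (Nat.Prime.coprime_iff_not_dvd hmp).1 hc.symm, ?_⟩, rfl⟩
          · rw [Nat.le_div_iff_mul_le he, mul_comm]
            exact h4
          · exact (Nat.Prime.coprime_iff_not_dvd hmp).1
              (Nat.Coprime.coprime_dvd_left (dvd_mul_left _ _) h6)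
        · have h3 : ArithmeticFunction.vonMangoldt m = 0 := by
            by_contra h4
            exact hm (ArithmeticFunction.vonMangoldt_ne_zero_iff.1 h4)
          rw [h3, mul_zero]
      · rw [if_neg hed, mul_zero]
  · rw [fy_of_notMem hes, neg_zero, zero_mul]
    refine Finset.sum_eq_zero fun d hd => ?_
    rw [if_neg, mul_zero]
    intro hed
    exact hes (SF_of_dvd hd hed)

theorem sb_three (q Y e : ℕ) (hY : 1 ≤ Y) (he : 1 ≤ e) :
    ∑ h ∈ (Finset.Icc 1 Y).filter (fun h => e ∣ h), fb q Y h / h * Real.log h =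
      fy q Y e * (Real.log e - fP q Y e) := by
  classical
  rw [sum_swap q Y e he (fun h => Real.log h)]
  have he0 : (e : ℝ) ≠ 0 := by positivity
  have h2 : ∀ d ∈ SF q Y, fy q Y d * (if e ∣ d then ∑ h ∈ (d / e).divisors,
      (ArithmeticFunction.moebius (d / e / h) : ℝ) * Real.log ((e * h : ℕ) : ℝ) else 0) =
      (if d = e then fy q Y d * Real.log e else 0) +
        fy q Y d * (if e ∣ d then ArithmeticFunction.vonMangoldt (d / e) else 0) := by
    intro d hd
    by_cases hed : e ∣ d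
    · rw [if_pos hed, if_pos hed]
      have h3 : ∀ h ∈ (d / e).divisors,
          (ArithmeticFunction.moebius (d / e / h) : ℝ) * Real.log ((e * h : ℕ) : ℝ) =
          (ArithmeticFunction.moebius (d / e / h) : ℝ) * Real.log e +
            (ArithmeticFunction.moebius (d / e / h) : ℝ) * Real.log h := by
        intro h hh
        have hh0 : (h : ℝ) ≠ 0 := by
          have := Nat.pos_of_mem_divisors hh
          positivity
        rw [Nat.cast_mul, Real.log_mul he0 hh0]
        ring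
      rw [Finset.sum_congr rfl h3, Finset.sum_add_distrib, ← Finset.sum_mul, sum_mu, sum_mu_log,
        mul_add]
      congr 1
      by_cases hde : d = e
      · rw [if_pos hde, if_pos, one_mul]
        rw [hde]; exact Nat.div_self he
      · rw [if_neg hde, if_neg, zero_mul, mul_zero]
        intro h3
        apply hde
        have := Nat.div_mul_cancel hed
        rw [h3, one_mul] at this
        exact this.symm
    · rw [if_neg hed, if_neg hed, mul_zero, add_zero, if_neg]
      rintro rfl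
      exact hed dvd_rfl
  rw [Finset.sum_congr rfl h2, Finset.sum_add_distrib, sb_lam q Y e hY he, Finset.sum_ite_eq']
  split_ifs with h3
  · ring
  · rw [fy_of_notMem h3]
    ring

theorem pf_SB : T_SB := by
  intro q Y _ hY
  refine ⟨⟨fb_one hY, fb_le hY, fun h hc => fb_cop hc⟩, fun e he => ?_, fun e he => ?_⟩
  · exact (Finset.sum_congr (Finset.filter_congr_decidable _ _ _) fun _ _ => rfl).trans
      (sb_two q Y e he)
  · exact (Finset.sum_congr (Finset.filter_congr_decidable _ _ _) fun _ _ => rfl).trans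
      (sb_three q Y e hY he)

end Pool.Agent.H19.OT
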