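import Pool.Agent.H88.OT.Targets
import Pool.Agent.H2.PZ.VV

/-!
# Absolute convergence of the double sums
-/

set_option autoImplicit false

open Complex MeasureTheory Set

namespace Pool.Agent.H19.OT

open Pool.Agent.H88.OT
open Pool.Agent.H23.GLH (PrimChar)
open Pool.Agent.H28.MZ (ei co Bf V W SS DS Sy PP Mol dv T_VV)

theorem co_zero' (π : PrimChar) : co π 0 = 0 := by
  unfold co
  rw [if_pos rfl]

theorem norm_co_le (π : PrimChar) (n : ℕ) : ‖co π n‖ ≤ 1 := by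
  unfold co
  split_ifs
  · simp
  · exact DirichletCharacter.norm_le_one _ _

theorem pf_SU : T_SU := by
  intro π s ξ hs hξ
  have hVV : T_VV := Pool.Agent.H2.PZ.vv
  obtain ⟨hV1, _, _, hV4, _⟩ := hVV
  obtain ⟨C, hC, hCV⟩ := hV4 2 (by norm_num)
  have h1 : Summable fun n : ℕ => 1 / (n : ℝ) ^ 2 := Real.summable_one_div_nat_pow.mpr one_lt_two
  have h2 : Summable fun p : ℕ × ℕ => C * ξ ^ (-2 : ℝ) * (1 / (p.1 : ℝ) ^ 2 * (1 / (p.2 : ℝ) ^ 2)) :=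
    (h1.mul_of_nonneg h1 (fun n => by positivity) (fun n => by positivity)).mul_left _
  refine Summable.of_nonneg_of_le (fun p => by positivity) (fun p => ?_) h2
  rcases Nat.eq_zero_or_pos p.1 with hp1 | hp1
  · rw [hp1, co_zero', norm_zero, zero_mul, zero_mul]
    positivity
  rcases Nat.eq_zero_or_pos p.2 with hp2 | hp2
  · rw [hp2, co_zero', norm_zero, mul_zero, zero_mul]
    positivity
  have ha : (1 : ℝ) ≤ p.1 := by exact_mod_cast hp1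
  have hb : (1 : ℝ) ≤ p.2 := by exact_mod_cast hp2
  have hab : (1 : ℝ) ≤ (p.1 : ℝ) * p.2 := by nlinarith
  have hab0 : (0 : ℝ) < (p.1 : ℝ) * p.2 := by linarith
  have h3 : ((p.1 : ℝ) * p.2) ^ (-s) ≤ 1 := Real.rpow_le_one_of_one_le_of_nonpos hab (by linarith)
  have h4 : 0 ≤ ((p.1 : ℝ) * p.2) ^ (-s) := Real.rpow_nonneg hab0.le _
  have h5 := hCV ((p.1 : ℝ) * p.2 * ξ) (by positivity)
  have h6 := (hV1 ((p.1 : ℝ) * p.2 * ξ) (by positivity)).1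
  have h7 : ((p.1 : ℝ) * p.2 * ξ) ^ (-2 : ℝ) =
      ξ ^ (-2 : ℝ) * (1 / (p.1 : ℝ) ^ 2 * (1 / (p.2 : ℝ) ^ 2)) := by
    rw [Real.mul_rpow hab0.le hξ.le, Real.mul_rpow (by linarith) (by linarith),
      Real.rpow_neg (by linarith), Real.rpow_neg (by linarith : (0 : ℝ) ≤ p.2)]
    norm_num
    ring
  rw [abs_of_nonneg (mul_nonneg h4 h6)]
  calc ‖co π p.1‖ * ‖co π p.2‖ * (((p.1 : ℝ) * p.2) ^ (-s) * V ((p.1 : ℝ) * p.2 * ξ))
      ≤ 1 * 1 * (1 * (C * ((p.1 : ℝ) * p.2 * ξ) ^ (-2 : ℝ))) := by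
        gcongr
        · exact norm_co_le _ _
        · exact norm_co_le _ _
    _ = C * ξ ^ (-2 : ℝ) * (1 / (p.1 : ℝ) ^ 2 * (1 / (p.2 : ℝ) ^ 2)) := by
        rw [h7]; ring

end Pool.Agent.H19.OT
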